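import Pool.Agent.MP_d32a63_an.H58.Spec
import Pool.Agent.MP_d32a63_an.H4.Glue

/-! Rows UL and GLUE: uniform limits, Painleve, unique continuation, gluing. -/

open Set Filter Topology Metric
open Complex (I)

namespace Pool.Agent.MP_d32a63_an.H37

theorem ul1 : H58.UL := by
  intro l g u A L s hl hA hs hg hL
  have hlip : ∀ x ∈ A, ∀ y ∈ A, ‖u x - u y‖ ≤ L * ‖x - y‖ := by
    intro x hx y hy
    have h1 : Tendsto (fun J => ‖g J x - g J y‖) l (𝓝 ‖u x - u y‖) :=
      ((hg x hx).sub (hg y hy)).norm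
    have h2 : Tendsto (fun J => L * (‖x - y‖ + s J)) l (𝓝 (L * (‖x - y‖ + 0))) :=
      (tendsto_const_nhds.add hs).const_mul L
    rw [add_zero] at h2
    exact le_of_tendsto_of_tendsto h1 h2 (hL.mono fun J hJ => hJ x hx y hy)
  refine ⟨?_, hlip⟩
  rw [Metric.tendstoUniformlyOn_iff]
  intro ε hε
  set δ : ℝ := ε / (4 * (|L| + 1)) with hδ
  have hL1 : 0 < |L| + 1 := by positivity
  have hδ0 : 0 < δ := by positivity
  have hδ1 : |L| * δ ≤ ε / 4 := by
    have : (|L| + 1) * δ = ε / 4 := by rw [hδ]; field_simp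
    nlinarith
  have htb : TotallyBounded A := hA.isCompact_closure.totallyBounded.subset subset_closure
  obtain ⟨t, htA, htf, hcov⟩ := Metric.finite_approx_of_totallyBounded htb δ hδ0
  have e1 : ∀ᶠ J in l, ∀ y ∈ t, dist (g J y) (u y) < ε / 4 :=
    (eventually_all_finite htf).2 fun y hy =>
      Metric.tendsto_nhds.1 (hg y (htA hy)) _ (by positivity)
  have e2 : ∀ᶠ J in l, dist (s J) 0 < δ := Metric.tendsto_nhds.1 hs _ hδ0
  filter_upwards [e1, e2, hL] with J h1 h2 h3 x hx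
  obtain ⟨y, hy, hxy⟩ := mem_iUnion₂.1 (hcov hx)
  rw [mem_ball, dist_eq_norm] at hxy
  rw [Real.dist_eq, sub_zero] at h2
  have a1 := h1 y hy
  have a2 := h3 x hx y (htA hy)
  have a3 := hlip x hx y (htA hy)
  rw [dist_eq_norm] at a1 ⊢
  have n0 := norm_nonneg (x - y)
  have b2 : L * (‖x - y‖ + s J) ≤ |L| * δ + |L| * δ := by
    calc L * (‖x - y‖ + s J) ≤ |L * (‖x - y‖ + s J)| := le_abs_self _
      _ = |L| * |‖x - y‖ + s J| := abs_mul _ _
      _ ≤ |L| * (δ + δ) := by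
          refine mul_le_mul_of_nonneg_left ?_ (abs_nonneg _)
          refine (abs_add_le _ _).trans ?_
          rw [abs_of_nonneg n0]; linarith
      _ = |L| * δ + |L| * δ := by ring
  have b3 : L * ‖x - y‖ ≤ |L| * δ :=
    (mul_le_mul_of_nonneg_right (le_abs_self L) n0).trans
      (mul_le_mul_of_nonneg_left hxy.le (abs_nonneg _))
  have e : u x - g J x = (u x - u y) - (g J y - u y) - (g J x - g J y) := by ring
  rw [e]
  have t1 := norm_sub_le ((u x - u y) - (g J y - u y)) (g J x - g J y)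
  have t2 := norm_sub_le (u x - u y) (g J y - u y)
  linarith

theorem pain1 : H58.PAIN := by
  intro u z0 ω x r hω hc hd
  refine H4.pain isOpen_ball z0 ω⁻¹ (inv_ne_zero hω) hc fun z hz => ?_
  refine (hd z hz.1 fun h => hz.2 ?_).differentiableWithinAt
  show ((z - z0) / ω⁻¹).im = 0
  rwa [div_inv_eq_mul]

theorem clop1 : H58.CLOP := by
  intro U B ctr t φ hU hUc hB hne hc ht hw hz hcst
  refine H4.clopen hU hUc hc.continuousOn ht hw ?_ hB ?_ ?_
  · intro z hzU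
    have h2 : ∀ᶠ z' in 𝓝 z, z' ∈ U ∧ dist (ctr z') (ctr z) < t / 2 :=
      Filter.Eventually.and (hU.mem_nhds hzU)
        (Metric.tendsto_nhds.1 hc.continuousAt _ (by positivity))
    obtain ⟨r, hr, h3⟩ := Metric.eventually_nhds_iff_ball.1 h2
    refine ⟨r, hr, fun w hw' z' hz' => (hz z' (h3 z' hz').1 w ?_).differentiableWithinAt⟩
    have := (h3 z' hz').2
    rw [mem_ball] at hw' ⊢
    linarith [dist_triangle w (ctr z) (ctr z'), dist_comm (ctr z) (ctr z')]
  · rwa [inter_comm]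
  · intro z hz' w hw'
    exact hcst z hz'.2 hz'.1 w hw' _ (mem_ball_self ht)

theorem ul : H58.R_UL := ⟨ul1, pain1, clop1⟩

theorem glue : H58.R_GLUE := by
  intro _ W P g ψ M hW h0 hP hg hψ hb hb' hfr z0 hz0 hz2
  obtain ⟨H, hH, hHg⟩ := H4.glue (B := ball 0 3) (G := g) (Ψ := ψ) (M := M) hW isOpen_ball hP
    (fun y h1 h2 h3 => (hfr y h1 h2 h3).1) hg (hψ.mono inter_subset_left)
    (fun y h1 h2 h3 => (hfr y h1.1 h2 h3).2.1) (fun y h1 h2 h3 => (hfr y h1.1 h2 h3).2.2)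
    (fun z hz => hb z hz.1 (by simpa using (mem_ball_zero_iff.1 hz.2).le))
    (fun z hz => hb' z hz.1)
  have hsub : closedBall (0 : ℂ) (5 / 2) ⊆ ball 0 3 := closedBall_subset_ball (by norm_num)
  have hm : z0 ∈ ball (0 : ℂ) (5 / 2) := by rw [mem_ball_zero_iff]; linarith
  have hc := (hH.mono hsub).circleIntegral_sub_inv_smul hm
  have e : (∮ ζ in C(0, 5 / 2), (ζ - z0)⁻¹ * g ζ) = ∮ ζ in C(0, 5 / 2), (ζ - z0)⁻¹ • H ζ := by
    refine circleIntegral.integral_congr (by norm_num) fun ζ hζ => ?_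
    have h1 : ‖ζ‖ = 5 / 2 := by simpa using hζ
    have h2 : ζ ∈ W := h0 (by
      have := Complex.norm_le_abs_re_add_abs_im ζ
      show 1 < |ζ.re| + |ζ.im|
      linarith)
    show (ζ - z0)⁻¹ * g ζ = (ζ - z0)⁻¹ • H ζ
    rw [smul_eq_mul, hHg ζ ⟨h2, by rw [mem_ball_zero_iff, h1]; norm_num⟩]
  unfold H58.cau
  rw [e, hc, smul_eq_mul, hHg z0 ⟨hz0, by rw [mem_ball_zero_iff]; linarith⟩, ← mul_assoc,
    inv_mul_cancel₀ Complex.two_pi_I_ne_zero, one_mul]

end Pool.Agent.MP_d32a63_an.H37
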